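import Pool.Agent.N119.PS.Stm3
import Pool.Agent.N123.PSC.BCL
import Pool.Agent.N720.PSC.RAY
import Pool.Agent.N578.PSC.BUS

/-!
Project PSC3 of helper119: the Patterson-Sullivan current of a density (helper386).
-/

set_option autoImplicit false

namespace Pool.Agent.N386.PSC3.CUR

open Pool.Agent.H472R3 Pool.Agent.H67R3.FSR Pool.Agent.H67R4.SR Pool.Agent.N119.PS
open MeasureTheory Topology Filter
open scoped ENNReal NNReal

section General

theorem comap_wd {α β : Type} [MeasurableSpace α] [MeasurableSpace β] {f : α → β}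
    (hf : MeasurableEmbedding f) (μ : Measure β) (g : β → ℝ≥0∞) :
    (μ.withDensity g).comap f = (μ.comap f).withDensity (fun x => g (f x)) := by
  ext s hs
  rw [hf.comap_apply, withDensity_apply _ (hf.measurableSet_image.2 hs), withDensity_apply _ hs,
    hf.restrict_comap, ← hf.lintegral_map, hf.map_comap,
    Measure.restrict_restrict hf.measurableSet_range,
    Set.inter_eq_self_of_subset_right (Set.image_subset_range f s)]

theorem map_wd {α β : Type} [MeasurableSpace α] [MeasurableSpace β] {f : α → β}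
    (hf : Measurable f) (μ : Measure α) {g : β → ℝ≥0∞} (hg : Measurable g) :
    (μ.withDensity (fun x => g (f x))).map f = (μ.map f).withDensity g := by
  ext s hs
  rw [Measure.map_apply hf hs, withDensity_apply _ (hf hs), withDensity_apply _ hs,
    setLIntegral_map hs hg hf]

theorem map_comap_comm {α β : Type} [MeasurableSpace α] [MeasurableSpace β] {i : α → β}
    (hi : MeasurableEmbedding i) {j : α → α} (hj : Measurable j) {J : β → β} (hJ : Measurable J)
    (h1 : ∀ q, i (j q) = J (i q)) (h2 : ∀ p, J p ∈ Set.range i → p ∈ Set.range i)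
    (μ : Measure β) : (μ.comap i).map j = (μ.map J).comap i := by
  ext s hs
  rw [Measure.map_apply hj hs, hi.comap_apply, hi.comap_apply,
    Measure.map_apply hJ (hi.measurableSet_image.2 hs)]
  congr 1
  ext p
  constructor
  · rintro ⟨q, hq, rfl⟩
    exact ⟨j q, hq, h1 q⟩
  · rintro ⟨q, hq, hp⟩
    obtain ⟨q', rfl⟩ := h2 p ⟨q, hp⟩
    refine ⟨q', ?_, rfl⟩
    rw [← h1] at hp
    have h3 := hi.injective hp
    show j q' ∈ s
    rwa [← h3]

end General

variable {N : ℕ}

instance secondCountable_bd : SecondCountableTopology (Bd N) := by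
  have : Countable (FreeGroup (Fin N)) := FreeGroup.toWord_injective.countable
  have : SecondCountableTopology (FreeGroup (Fin N) → Lt N) := inferInstance
  exact TopologicalSpace.Subtype.secondCountableTopology _

theorem emb : MeasurableEmbedding (fun q : Bd2 N => q.1) := by
  have hopen : IsOpen {p : Bd N × Bd N | p.1 ≠ p.2} := isOpen_ne_fun continuous_fst continuous_snd
  have h : IsOpenEmbedding (fun q : Bd2 N => q.1) := hopen.isOpenEmbedding_subtypeVal
  exact h.measurableEmbedding

theorem cont_ray (n : ℕ) (F : FreeGroup (Fin N) → ℝ) : Continuous fun ξ : Bd N => F (ray ξ n) := by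
  rw [continuous_iff_continuousAt]
  intro ξ
  refine tendsto_const_nhds.congr' ?_
  filter_upwards [ray_locally ξ n] with ζ hζ
  rw [hζ]

theorem cont_ray2 (n : ℕ) (F : FreeGroup (Fin N) → FreeGroup (Fin N) → ℝ) :
    Continuous fun q : Bd2 N => F (ray q.1.1 n) (ray q.1.2 n) := by
  rw [continuous_iff_continuousAt]
  intro q
  have h1 : ∀ᶠ q' : Bd2 N in 𝓝 q, ray q'.1.1 n = ray q.1.1 n :=
    (continuous_fst.comp continuous_subtype_val).continuousAt.eventually (ray_locally q.1.1 n)
  have h2 : ∀ᶠ q' : Bd2 N in 𝓝 q, ray q'.1.2 n = ray q.1.2 n :=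
    (continuous_snd.comp continuous_subtype_val).continuousAt.eventually (ray_locally q.1.2 n)
  refine tendsto_const_nhds.congr' ?_
  filter_upwards [h1, h2] with q' h3 h4
  rw [h3, h4]

theorem meas_buse (h1 : S_APP) (A : FTree N) (hA : A.InCV) (y z : A.T) :
    Measurable fun ξ : Bd N => buse A ξ y z := by
  refine measurable_of_tendsto_metrizable
    (f := fun n (ξ : Bd N) => dist y (ray ξ n • y) - dist z (ray ξ n • y))
    (fun n => (cont_ray n (fun g => dist y (g • y) - dist z (g • y))).measurable) ?_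
  rw [tendsto_pi_nhds]
  intro ξ
  obtain ⟨n0, hn0⟩ := (h1 N A hA).1 ξ y y z
  refine tendsto_const_nhds.congr' ?_
  filter_upwards [eventually_ge_atTop n0] with n hn
  exact (hn0 n hn).symm

theorem meas_gp (h1 : S_APP) (A : FTree N) (hA : A.InCV) (y : A.T) :
    Measurable fun q : Bd2 N => gpBd A y q := by
  refine measurable_of_tendsto_metrizable
    (f := fun n (q : Bd2 N) => gpT y (ray q.1.1 n • y) (ray q.1.2 n • y))
    (fun n => (cont_ray2 n (fun g g' => gpT y (g • y) (g' • y))).measurable) ?_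
  rw [tendsto_pi_nhds]
  intro q
  obtain ⟨n0, hn0⟩ := (h1 N A hA).2 q y y y
  refine tendsto_const_nhds.congr' ?_
  filter_upwards [eventually_ge_atTop n0] with n hn
  exact (hn0 n n hn hn).symm

/-- the product measure on the pairs of distinct ends -/
noncomputable def P (A : FTree N) (ν : A.T → Measure (Bd N)) (y : A.T) : Measure (Bd2 N) :=
  ((ν y).prod (ν y)).comap fun q : Bd2 N => q.1

/-- the density -/
noncomputable def E (A : FTree N) (y : A.T) (q : Bd2 N) : ℝ≥0∞ :=
  ENNReal.ofReal (Real.exp (2 * critExp A * gpBd A y q))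

theorem meas_E (h1 : S_APP) (A : FTree N) (hA : A.InCV) (y : A.T) : Measurable (E A y) :=
  ENNReal.measurable_ofReal.comp (Real.measurable_exp.comp ((meas_gp h1 A hA y).const_mul _))

/-- independence of the base point -/
theorem base (h1 : S_APP) (h2 : S_INV) (A : FTree N) (hA : A.InCV) {ν : A.T → Measure (Bd N)}
    (hν : IsPSDensity A ν) (y z : A.T) :
    (P A ν y).withDensity (E A y) = (P A ν z).withDensity (E A z) := by
  have := hν.finite z
  obtain ⟨f, hf⟩ : ∃ f : Bd N → ℝ≥0∞,
      f = fun ξ => ENNReal.ofReal (Real.exp (-critExp A * buse A ξ y z)) := ⟨_, rfl⟩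
  have hfm : Measurable f := by
    rw [hf]
    exact ENNReal.measurable_ofReal.comp (Real.measurable_exp.comp
      ((meas_buse h1 A hA y z).const_mul _))
  have hy : ν y = (ν z).withDensity f := by
    rw [hf]
    exact hν.conformal z y
  have hP : P A ν y = (P A ν z).withDensity (fun q : Bd2 N => f q.1.1 * f q.1.2) := by
    unfold P
    rw [hy, prod_withDensity hfm hfm, comap_wd emb]
  have hi : Measurable fun q : Bd2 N => q.1 := emb.measurable
  have hF : Measurable (fun q : Bd2 N => f q.1.1 * f q.1.2) :=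
    (hfm.comp (measurable_fst.comp hi)).mul (hfm.comp (measurable_snd.comp hi))
  rw [hP, ← withDensity_mul _ hF (meas_E h1 A hA y)]
  congr 1
  funext q
  rw [Pi.mul_apply, hf]
  unfold E
  rw [← ENNReal.ofReal_mul (Real.exp_pos _).le, ← ENNReal.ofReal_mul (by positivity),
    ← Real.exp_add, ← Real.exp_add]
  congr 2
  have h3 := (h2 N A hA).2.2.2 q y z
  linear_combination critExp A * h3

theorem ran {p : Bd N × Bd N} : p ∈ Set.range (fun q : Bd2 N => q.1) ↔ p.1 ≠ p.2 := by
  constructor
  · rintro ⟨q, rfl⟩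
    exact q.2
  · intro h
    exact ⟨⟨p, h⟩, rfl⟩

/-- translation -/
theorem trans (h1 : S_APP) (h2 : S_INV) (A : FTree N) (hA : A.InCV) {ν : A.T → Measure (Bd N)}
    (hν : IsPSDensity A ν) (g : FreeGroup (Fin N)) (x : A.T) :
    ((P A ν x).withDensity (E A x)).map (fun q => g • q) =
      (P A ν (g • x)).withDensity (E A (g • x)) := by
  have := hν.finite x
  have hgm : Measurable fun ξ : Bd N => g • ξ := (continuous_smul_bd g).measurable
  have h3 : E A x = fun q => E A (g • x) (g • q) := by
    funext q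
    unfold E
    rw [(h2 N A hA).2.2.1 g q x]
  rw [h3, map_wd (measurable_smul2 g) _ (meas_E h1 A hA (g • x))]
  congr 1
  unfold P
  rw [map_comap_comm emb (measurable_smul2 g) (J := Prod.map (fun ξ => g • ξ) (fun ξ => g • ξ))
    (hgm.prodMap hgm) (fun q => rfl), ← Measure.map_prod_map _ _ hgm hgm, hν.equivariant]
  intro p hp
  rw [ran] at hp ⊢
  exact fun h => hp (congrArg (fun ξ => g • ξ) h)

theorem gp_flip (h1 : S_APP) (A : FTree N) (hA : A.InCV) (x : A.T) (q : Bd2 N) :
    gpBd A x (flip2 q) = gpBd A x q := by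
  obtain ⟨n0, hn0⟩ := (h1 N A hA).2 q x x x
  obtain ⟨n1, hn1⟩ := (h1 N A hA).2 (flip2 q) x x x
  rw [← hn0 (max n0 n1) (max n0 n1) (le_max_left _ _) (le_max_left _ _),
    ← hn1 (max n0 n1) (max n0 n1) (le_max_right _ _) (le_max_right _ _)]
  exact gpT_comm _ _ _

/-- flip -/
theorem flp (h1 : S_APP) (A : FTree N) (hA : A.InCV) {ν : A.T → Measure (Bd N)}
    (hν : IsPSDensity A ν) (x : A.T) :
    ((P A ν x).withDensity (E A x)).map flip2 = (P A ν x).withDensity (E A x) := by
  have := hν.finite x
  have h3 : E A x = fun q => E A x (flip2 q) := by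
    funext q
    unfold E
    rw [gp_flip h1 A hA]
  conv_lhs => rw [h3]
  rw [map_wd measurable_flip2 _ (meas_E h1 A hA x)]
  congr 1
  unfold P
  rw [map_comap_comm emb measurable_flip2 (J := Prod.swap) measurable_swap (fun q => rfl),
    Measure.prod_swap]
  intro p hp
  rw [ran] at hp ⊢
  exact fun h => hp h.symm

/-- a letter of positive mass -/
theorem letter (ν : Measure (Bd N)) (hν : ν ≠ 0) : ∃ a : Lt N, ν {ξ | ξ.1 1 = a} ≠ 0 := by
  by_contra hcon
  push Not at hcon
  apply hν
  rw [← Measure.measure_univ_eq_zero]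
  have h1 : (Set.univ : Set (Bd N)) = ⋃ a : Lt N, {ξ | ξ.1 1 = a} := by
    ext ξ
    simp
  rw [h1]
  exact measure_iUnion_null hcon

theorem t (h1 : S_APP) (h2 : S_INV) (h3 : S_PSP) : S_CUR := by
  intro N hN A hA ν hν x
  have hfin := hν.finite x
  have hinv : ∀ g : FreeGroup (Fin N),
      ((P A ν x).withDensity (E A x)).map (fun q => g • q) = (P A ν x).withDensity (E A x) :=
    fun g => (trans h1 h2 A hA hν g x).trans (base h1 h2 A hA hν (g • x) x)
  have hU : ((P A ν x).withDensity (E A x)) (U 1) < ∞ := by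
    obtain ⟨C, hC⟩ := Pool.Agent.N123.PSC.t N A hA x
    have hb := (Pool.Agent.N578.PSC.BUS.t Pool.Agent.N720.PSC.t N A hA x C hC).2
    have hms : MeasurableSet (U 1 : Set (Bd2 N)) := (isOpen_U 1).measurableSet
    have hh : 0 ≤ critExp A := Real.sInf_nonneg fun s hs => hs.1
    rw [withDensity_apply _ hms]
    refine lt_of_le_of_lt (setLIntegral_mono' hms
      (g := fun _ => ENNReal.ofReal (Real.exp (2 * critExp A * C))) fun q hq => ?_) ?_
    · refine ENNReal.ofReal_le_ofReal (Real.exp_le_exp.2 ?_)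
      exact mul_le_mul_of_nonneg_left (hb q hq) (by positivity)
    · rw [setLIntegral_const]
      refine ENNReal.mul_lt_top ENNReal.ofReal_lt_top ?_
      unfold P
      rw [emb.comap_apply]
      exact measure_lt_top _ _
  have hpos : ((P A ν x).withDensity (E A x)) (U 1) ≠ 0 := by
    intro h0
    rw [withDensity_apply_eq_zero (meas_E h1 A hA x)] at h0
    have h4 : {q : Bd2 N | E A x q ≠ 0} = Set.univ := by
      ext q
      simp only [Set.mem_ofPred_eq, Set.mem_univ, iff_true]
      unfold E
      exact (ENNReal.ofReal_pos.2 (Real.exp_pos _)).ne'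
    rw [h4, Set.univ_inter] at h0
    unfold P at h0
    rw [emb.comap_apply] at h0
    obtain ⟨a, ha⟩ := letter (ν x) (hν.ne_zero x)
    have ha' := (h3 N hN A ν hν x a).ne'
    have h5 : {ξ : Bd N | ξ.1 1 = a} ×ˢ {ξ : Bd N | ξ.1 1 ≠ a} ⊆
        (fun q : Bd2 N => q.1) '' (U 1) := by
      rintro ⟨ξ, ζ⟩ ⟨hξ, hζ⟩
      have hξ : ξ.1 1 = a := hξ
      have hζ : ζ.1 1 ≠ a := hζ
      have h6 : ξ.1 1 ≠ ζ.1 1 := by
        rw [hξ]
        exact hζ.symm
      exact ⟨⟨(ξ, ζ), fun h => h6 (congrArg (fun w : Bd N => w.1 1) h)⟩, h6, rfl⟩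
    have h6 := measure_mono_null h5 h0
    rw [Measure.prod_prod] at h6
    exact (mul_ne_zero ha ha') h6
  exact ⟨⟨(P A ν x).withDensity (E A x), finite_of_U fun v => by
    rw [measure_U hinv v]
    exact hU, hinv, flp h1 A hA hν x⟩, rfl, hpos⟩

end Pool.Agent.N386.PSC3.CUR
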